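import Pool.Agent.H277.E2.Vlow
import Pool.Agent.H675.Par.SW

/-!
# The sieve weights (task E2 SV of helper560)
-/

set_option autoImplicit false

namespace Pool.Agent.H277.E2

open Polynomial Finset
open scoped Classical
open Pool.Agent.H694.Typ
open Pool.Agent.H560.E2
open Pool.Agent.H985.Par (Sft S_brun)
open Pool.Agent.H675.Par.SWL (w w_dyadic)

variable {K : Type} [Field K] [Fintype K]

/-- the primes which divide some `f + α i` -/
noncomputable def Bf {k : ℕ} (α : Fin k → K[X]) (m : ℕ) (f : K[X]) : Finset K[X] :=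
  (PU K m).filter (fun P => ∃ i, P ∣ f + α i)

theorem Bf_sub {k : ℕ} (α : Fin k → K[X]) (m : ℕ) (f : K[X]) : Bf α m f ⊆ PU K m :=
  filter_subset _ _

theorem th_eq {k : ℕ} (α : Fin k → K[X]) (m : ℕ) (f : K[X]) (U : Finset K[X] → ℝ) :
    th m U α f = ∑ T ∈ (Bf α m f).powerset, U T := by
  unfold th
  have h1 : (Bf α m f).powerset =
      (PU K m).powerset.filter (fun T => ∀ P ∈ T, ∃ i, P ∣ f + α i) := by
    ext T
    rw [mem_powerset, mem_filter, mem_powerset]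
    constructor
    · intro h
      exact ⟨h.trans (Bf_sub _ _ _), fun P hP => (mem_filter.1 (h hP)).2⟩
    · rintro ⟨h, h2⟩ P hP
      exact mem_filter.2 ⟨h hP, h2 P hP⟩
  rw [h1, Finset.sum_filter]

theorem Sft_iff {k : ℕ} (α : Fin k → K[X]) (m : ℕ) (f : K[X]) :
    (∀ i, Sft m (f + α i)) ↔ Bf α m f = ∅ := by
  rw [Finset.eq_empty_iff_forall_notMem]
  constructor
  · intro h P hP
    unfold Bf at hP
    rw [mem_filter, mem_PU] at hP
    obtain ⟨⟨h1, h2, h3⟩, i, hi⟩ := hP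
    have := h i P h1 h2 hi
    omega
  · intro h i P h1 h2 h3
    by_contra hc
    rw [not_lt] at hc
    exact h P (mem_filter.2 ⟨mem_PU.2 ⟨h1, h2, hc⟩, i, h3⟩)

theorem q_le {P : K[X]} {k : ℕ} {α : Fin k → K[X]} {m : ℕ} (hP : P ∈ PU K m)
    (ha : Adm α m) : (om α P : ℝ) + 2 ≤ (Fintype.card K : ℝ) ^ P.natDegree := by
  have h3 := ha P hP
  have : om α P + 2 ≤ Fintype.card K ^ P.natDegree := h3
  exact_mod_cast this

theorem wd_nonneg {P : K[X]} {k : ℕ} {α : Fin k → K[X]} {m : ℕ} (hP : P ∈ PU K m)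
    (ha : Adm α m) : 0 ≤ wd α P := by
  have h1 := q_le hP ha
  have h0 : (0 : ℝ) ≤ om α P := Nat.cast_nonneg _
  unfold wd
  exact div_nonneg h0 (by linarith)

theorem wd_le {P : K[X]} {k : ℕ} {α : Fin k → K[X]} {m : ℕ} (hP : P ∈ PU K m)
    (ha : Adm α m) : wd α P ≤ 1 - 1 / (4 * (k : ℝ) + 4) := by
  have h1 := q_le hP ha
  have h0 : (0 : ℝ) ≤ om α P := Nat.cast_nonneg _
  have hk : (0 : ℝ) ≤ k := Nat.cast_nonneg _
  have hok : (om α P : ℝ) ≤ k := by exact_mod_cast om_le α P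
  unfold wd
  set Q : ℝ := (Fintype.card K : ℝ) ^ P.natDegree with hQ
  have hQ1 : 0 < Q - 1 := by linarith
  rw [div_le_iff₀ hQ1]
  have hC : (0 : ℝ) < 4 * (k : ℝ) + 4 := by linarith
  have e : (1 - 1 / (4 * (k : ℝ) + 4)) * (Q - 1) = (Q - 1) - (Q - 1) / (4 * (k : ℝ) + 4) := by
    ring
  rw [e]
  rcases le_or_gt (Q - 1) (4 * (k : ℝ) + 4) with h | h
  · have h2 : (Q - 1) / (4 * (k : ℝ) + 4) ≤ 1 := by
      rw [div_le_one hC]
      exact h
    linarith
  · have h2 : (Q - 1) / (4 * (k : ℝ) + 4) ≤ (Q - 1) / 4 :=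
      div_le_div_of_nonneg_left hQ1.le (by norm_num) (by linarith)
    linarith

theorem wd_dyadic {k : ℕ} {α : Fin k → K[X]} {m : ℕ} (ha : Adm α m) (y : ℕ) :
    ∑ P ∈ PU K m with y < 2 * P.natDegree ∧ P.natDegree ≤ y, wd α P ≤ 4 * (k : ℝ) + 4 := by
  obtain ⟨s, hs⟩ := Infinite.exists_subset_card_eq K[X] (2 * k)
  have h1 := w_dyadic (K := K) (k := 2 * k) (Ω := fun _ => s) (Ps := PU K m)
    (fun P hP => ⟨(mem_PU.1 hP).1, (mem_PU.1 hP).2.1⟩) (fun P _ => hs.le) y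
  have hk : (0 : ℝ) ≤ k := Nat.cast_nonneg _
  have h2 : ∑ P ∈ PU K m with y < 2 * P.natDegree ∧ P.natDegree ≤ y, wd α P ≤
      ∑ P ∈ PU K m with y < 2 * P.natDegree ∧ P.natDegree ≤ y, w (fun _ => s) P := by
    refine sum_le_sum fun P hP => ?_
    have hP' := (mem_filter.1 hP).1
    have h3 := q_le hP' ha
    have hok : (om α P : ℝ) ≤ k := by exact_mod_cast om_le α P
    have h0 : (0 : ℝ) ≤ om α P := Nat.cast_nonneg _
    unfold wd w
    simp only [hs]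
    push_cast
    set Q : ℝ := (Fintype.card K : ℝ) ^ P.natDegree with hQ
    rw [div_le_div_iff₀ (by linarith) (by linarith)]
    nlinarith
  refine h2.trans (h1.trans ?_)
  push_cast
  linarith

/-- **Task SV.** -/
theorem svP (hb : S_brun) : S_svP := by
  intro K _ _ k ε hε
  have hk : (0 : ℝ) ≤ k := Nat.cast_nonneg _
  obtain ⟨A, hA⟩ := hb (4 * (k : ℝ) + 4) ε (by linarith) hε
  refine ⟨A, ?_⟩
  intro m α ha
  obtain ⟨U, V, h1, h2, h3, h4, h5, h6⟩ := hA K[X] (PU K m) natDegree (wd α) m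
    (fun P hP => ⟨(mem_PU.1 hP).2.1.natDegree_pos, (mem_PU.1 hP).2.2⟩)
    (fun P hP => ⟨wd_nonneg hP ha, wd_le hP ha⟩) (fun y => wd_dyadic ha y)
  refine ⟨U, V, h1, h2, ?_, ?_, h5, h6⟩
  · intro f
    rw [th_eq]
    refine le_trans (le_of_eq ?_) (h3 (Bf α m f) (Bf_sub _ _ _))
    by_cases h : ∀ i, Sft m (f + α i)
    · rw [if_pos h, if_pos ((Sft_iff α m f).1 h)]
    · rw [if_neg h, if_neg fun h' => h ((Sft_iff α m f).2 h')]
  · intro f
    rw [th_eq]
    refine le_trans (h4 (Bf α m f) (Bf_sub _ _ _)) (le_of_eq ?_)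
    by_cases h : ∀ i, Sft m (f + α i)
    · rw [if_pos h, if_pos ((Sft_iff α m f).1 h)]
    · rw [if_neg h, if_neg fun h' => h ((Sft_iff α m f).2 h')]

end Pool.Agent.H277.E2
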