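import Pool.Agent.H560.E2.Stm
import Pool.Agent.H996.Par.Low

/-!
# The lower bound for the singular product (task E2 VLOW of helper560)
-/

set_option autoImplicit false

namespace Pool.Agent.H277.E2

open Polynomial Finset
open scoped Classical
open Pool.Agent.H694.Typ
open Pool.Agent.H560.E2
open Pool.Agent.H996.Par (one_sub_ge sum_wt sum_wt_sq)

variable {K : Type} [Field K] [Fintype K]

omit [Fintype K] in
theorem om_le {k : ℕ} (α : Fin k → K[X]) (P : K[X]) : om α P ≤ k := by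
  unfold om
  refine (card_erase_le).trans ?_
  have := card_image_le (s := (univ : Finset (Fin k))) (f := fun i => α i % P)
  rwa [card_univ, Fintype.card_fin] at this

theorem v1_ge {k : ℕ} (m : ℕ) (α : Fin k → K[X]) (hm : 1 ≤ m) (ha : Adm α m) :
    Real.exp (-(3 * (k : ℝ) + 4 * (8 * (k : ℝ) ^ 3 + 2 * (k : ℝ) ^ 2))) / (m : ℝ) ^ k ≤
      V1 α m := by
  have hq := q_ge (k := K)
  set C : ℝ := 8 * (k : ℝ) ^ 3 + 2 * (k : ℝ) ^ 2 with hC
  have hC0 : 0 ≤ C := by positivity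
  have hk0 : (0 : ℝ) ≤ k := Nat.cast_nonneg k
  have hm0 : (0 : ℝ) < m := by exact_mod_cast hm
  have h1 : ∏ P ∈ PU K m, Real.exp (-((k : ℝ) * wt K P.natDegree +
      (2 * k + 4 * C) * wt K P.natDegree ^ 2)) ≤ V1 α m := by
    unfold V1
    refine prod_le_prod (fun _ _ => (Real.exp_pos _).le) fun P hP => ?_
    have h2 := om_le α P
    have h3 := ha P hP
    have hQ4 : ((om α P : ℝ)) + 1 < (Fintype.card K : ℝ) ^ P.natDegree := by
      exact_mod_cast h3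
    have h4 : (om α P : ℝ) + 1 ≤ (Fintype.card K : ℝ) ^ P.natDegree - 1 := by
      have : om α P + 1 + 1 ≤ Fintype.card K ^ P.natDegree := h3
      have h' : ((om α P : ℝ)) + 1 + 1 ≤ (Fintype.card K : ℝ) ^ P.natDegree := by
        exact_mod_cast this
      linarith
    have h5 := one_sub_ge k (om α P) ((Fintype.card K : ℝ) ^ P.natDegree - 1) h2 h4
    have h6 : 1 - wd α P = 1 - (om α P : ℝ) / ((Fintype.card K : ℝ) ^ P.natDegree - 1) := rfl
    rw [h6]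
    refine le_trans ?_ h5
    rw [Real.exp_le_exp]
    apply neg_le_neg
    have hom0 : (0 : ℝ) ≤ om α P := Nat.cast_nonneg _
    set Q : ℝ := (Fintype.card K : ℝ) ^ P.natDegree with hQ
    have hQ2 : 2 ≤ Q := by linarith
    have hQ1 : 0 < Q - 1 := by linarith
    have hQ0 : 0 < Q := by linarith
    have hwt : wt K P.natDegree = Q⁻¹ := rfl
    rw [hwt]
    have h7 : (Q - 1)⁻¹ ≤ Q⁻¹ + 2 * Q⁻¹ ^ 2 := by
      rw [inv_eq_one_div, div_le_iff₀ hQ1]
      have e : (Q⁻¹ + 2 * Q⁻¹ ^ 2) * (Q - 1) = 1 + Q⁻¹ - 2 * Q⁻¹ ^ 2 := by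
        field_simp
        ring
      rw [e]
      have h8 : Q⁻¹ ≤ 1 / 2 := by
        rw [inv_eq_one_div]
        exact one_div_le_one_div_of_le (by norm_num) hQ2
      have h9 : 0 < Q⁻¹ := inv_pos.2 hQ0
      nlinarith
    have h8 : (Q - 1)⁻¹ ≤ 2 * Q⁻¹ := by
      rw [inv_eq_one_div, div_le_iff₀ hQ1]
      have e : 2 * Q⁻¹ * (Q - 1) = 2 - 2 * Q⁻¹ := by
        field_simp
      rw [e]
      have h8 : Q⁻¹ ≤ 1 / 2 := by
        rw [inv_eq_one_div]
        exact one_div_le_one_div_of_le (by norm_num) hQ2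
      linarith
    have h9 : 0 < (Q - 1)⁻¹ := inv_pos.2 hQ1
    have h10 : (Q - 1)⁻¹ ^ 2 ≤ 4 * Q⁻¹ ^ 2 := by
      have := pow_le_pow_left₀ h9.le h8 2
      calc (Q - 1)⁻¹ ^ 2 ≤ (2 * Q⁻¹) ^ 2 := this
        _ = 4 * Q⁻¹ ^ 2 := by ring
    have h11 := mul_le_mul_of_nonneg_left h7 hk0
    have h12 := mul_le_mul_of_nonneg_left h10 hC0
    calc (k : ℝ) * (Q - 1)⁻¹ + C * (Q - 1)⁻¹ ^ 2
        ≤ (k : ℝ) * (Q⁻¹ + 2 * Q⁻¹ ^ 2) + C * (4 * Q⁻¹ ^ 2) := add_le_add h11 h12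
      _ = (k : ℝ) * Q⁻¹ + (2 * k + 4 * C) * Q⁻¹ ^ 2 := by ring
  refine le_trans ?_ h1
  rw [← Real.exp_sum]
  have h2 : ∑ P ∈ PU K m, (-((k : ℝ) * wt K P.natDegree +
      (2 * k + 4 * C) * wt K P.natDegree ^ 2)) =
      -((k : ℝ) * ∑ P ∈ PU K m, wt K P.natDegree +
        (2 * k + 4 * C) * ∑ P ∈ PU K m, wt K P.natDegree ^ 2) := by
    rw [sum_neg_distrib, sum_add_distrib, ← mul_sum, ← mul_sum]
  rw [h2]
  have h3 : Real.exp (-(3 * (k : ℝ) + 4 * C)) / (m : ℝ) ^ k =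
      Real.exp (-((k : ℝ) * (1 + Real.log m) + (2 * k + 4 * C) * 1)) := by
    have h4 : (m : ℝ) ^ k = Real.exp (k * Real.log m) := by
      rw [mul_comm, ← Real.rpow_natCast, Real.rpow_def_of_pos hm0]
    rw [h4, ← Real.exp_sub]
    congr 1
    ring
  rw [h3, Real.exp_le_exp]
  apply neg_le_neg
  exact add_le_add (mul_le_mul_of_nonneg_left (sum_wt m) hk0)
    (mul_le_mul_of_nonneg_left (sum_wt_sq m) (by positivity))

/-- **Task VLOW.** -/
theorem v1P : S_v1P := by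
  intro K _ _ k
  refine ⟨Real.exp (-(3 * (k : ℝ) + 4 * (8 * (k : ℝ) ^ 3 + 2 * (k : ℝ) ^ 2))), Real.exp_pos _, ?_⟩
  intro m α hm ha
  exact v1_ge m α hm ha

end Pool.Agent.H277.E2
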